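import Mathlib

/-!
Auxiliary development for `Pool.Agent.Results.MP_51bff2_lc.DualBound`.

Theorem `level_bound`: let `f` be a sum of `m` products of nonnegative nondecreasing univariate
functions on `ℕ^n`, let `Y`, `Z` be finite families with `f y < t ≤ f z` for all `y ∈ Y`, `z ∈ Z`,
such that every vector strictly below some `z ∈ Z` is below some `y ∈ Y`. Then `|Z|` is at most an
explicit polynomial in `n`, `m`, `|Y|`.

Idea: write `f` as the distribution function of a measure (products of increments). Started at `X`,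
move to `X ⊔ u` with `u` an atom; a double counting (weighted intersection lemma) compares the
number of `z ≥ X` with the number of `y ≥ X`, up to the contribution of the last step into `z`.
For a monomial that carries a non-negligible share of the last step, either some coordinate of the
last step has a small multiplicative increment, and then the step is charged to the points
`y`, or all the increments are large, and then `z` is determined by `X`, the monomial, `y`, the
cheapest coordinate and at most one more coordinate.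
-/

namespace Pool.Agent.H54.DualBoundAux

open Finset

/-- increments of a sequence -/
def inc (φ : ℕ → ℝ) : ℕ → ℝ
  | 0 => φ 0
  | (k+1) => φ (k+1) - φ k

lemma sum_inc (φ : ℕ → ℝ) (N : ℕ) : ∑ k ∈ range (N+1), inc φ k = φ N := by
  induction N with
  | zero => simp [inc]
  | succ N ih => rw [sum_range_succ, ih]; simp [inc]

lemma inc_nonneg {φ : ℕ → ℝ} (h0 : 0 ≤ φ 0) (hm : Monotone φ) (k : ℕ) : 0 ≤ inc φ k := by
  cases k with
  | zero => simpa [inc] using h0
  | succ k => simp only [inc]; linarith [hm (Nat.le_succ k)]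

lemma inc_le {φ : ℕ → ℝ} (h0 : 0 ≤ φ 0) (hm : Monotone φ) (k : ℕ) : inc φ k ≤ φ k := by
  cases k with
  | zero => simp [inc]
  | succ k => simp only [inc]; linarith [hm (Nat.zero_le k)]

lemma inc_eq {φ : ℕ → ℝ} {k : ℕ} (hk : 0 < k) : inc φ k = φ k - φ (k-1) := by
  cases k with
  | zero => simp at hk
  | succ k => simp [inc]

lemma nn {φ : ℕ → ℝ} (h0 : 0 ≤ φ 0) (hm : Monotone φ) (k : ℕ) : 0 ≤ φ k :=
  h0.trans (hm (Nat.zero_le k))

set_option linter.unusedSectionVars false

variable {ι κ : Type} [Fintype ι] [DecidableEq ι] [Fintype κ]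

def mu (φ : ι → ℕ → ℝ) (u : ι → ℕ) : ℝ := ∏ j, inc (φ j) (u j)

def gg (φ : ι → ℕ → ℝ) (x : ι → ℕ) : ℝ := ∏ j, φ j (x j)

def dn (x : ι → ℕ) : Finset (ι → ℕ) := Fintype.piFinset (fun j => range (x j + 1))

lemma mem_dn {u x : ι → ℕ} : u ∈ dn x ↔ u ≤ x := by
  simp [dn, Fintype.mem_piFinset, Pi.le_def]

lemma sum_mu_pi (φ : ι → ℕ → ℝ) (s : ι → Finset ℕ) :
    ∑ u ∈ Fintype.piFinset s, mu φ u = ∏ j, ∑ k ∈ s j, inc (φ j) k := by
  simp only [mu]
  exact (Finset.prod_univ_sum s (fun j k => inc (φ j) k)).symm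

lemma sum_mu_dn (φ : ι → ℕ → ℝ) (x : ι → ℕ) : ∑ u ∈ dn x, mu φ u = gg φ x := by
  rw [dn, sum_mu_pi]
  simp [sum_inc, gg]

/-- A sum of products of monotone functions -/
def FF (φ : κ → ι → ℕ → ℝ) (x : ι → ℕ) : ℝ := ∑ h, gg (φ h) x

def MU (φ : κ → ι → ℕ → ℝ) (u : ι → ℕ) : ℝ := ∑ h, mu (φ h) u

open Classical in
noncomputable def up (S : Finset (ι → ℕ)) (X : ι → ℕ) : Finset (ι → ℕ) := S.filter (fun z => X ≤ z)

lemma mem_up {S : Finset (ι → ℕ)} {X z : ι → ℕ} : z ∈ up S X ↔ z ∈ S ∧ X ≤ z := by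
  simp [up]

structure Good (φ : κ → ι → ℕ → ℝ) : Prop where
  h0 : ∀ h j, 0 ≤ φ h j 0
  hm : ∀ h j, Monotone (φ h j)

lemma mu_nonneg {φ : κ → ι → ℕ → ℝ} (hφ : Good φ) (h : κ) (u : ι → ℕ) : 0 ≤ mu (φ h) u :=
  prod_nonneg (fun j _ => inc_nonneg (hφ.h0 h j) (hφ.hm h j) _)

lemma gg_nonneg {φ : κ → ι → ℕ → ℝ} (hφ : Good φ) (h : κ) (u : ι → ℕ) : 0 ≤ gg (φ h) u :=
  prod_nonneg (fun j _ => nn (hφ.h0 h j) (hφ.hm h j) _)

lemma gg_mono {φ : κ → ι → ℕ → ℝ} (hφ : Good φ) (h : κ) {u v : ι → ℕ} (huv : u ≤ v) :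
    gg (φ h) u ≤ gg (φ h) v :=
  prod_le_prod (fun j _ => nn (hφ.h0 h j) (hφ.hm h j) _) (fun j _ => hφ.hm h j (huv j))

lemma FF_mono {φ : κ → ι → ℕ → ℝ} (hφ : Good φ) {u v : ι → ℕ} (huv : u ≤ v) :
    FF φ u ≤ FF φ v :=
  sum_le_sum (fun h _ => gg_mono hφ h huv)

lemma MU_nonneg {φ : κ → ι → ℕ → ℝ} (hφ : Good φ) (u : ι → ℕ) : 0 ≤ MU φ u :=
  sum_nonneg (fun h _ => mu_nonneg hφ h u)

lemma gg_sub_le {φ : κ → ι → ℕ → ℝ} (hφ : Good φ) (h : κ) {u v : ι → ℕ} (huv : u ≤ v) :
    gg (φ h) v - gg (φ h) u ≤ FF φ v - FF φ u := by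
  classical
  have : ∀ h', 0 ≤ gg (φ h') v - gg (φ h') u := fun h' => sub_nonneg.2 (gg_mono hφ h' huv)
  rw [FF, FF, ← sum_sub_distrib]
  exact single_le_sum (f := fun h' => gg (φ h') v - gg (φ h') u) (fun h' _ => this h') (mem_univ h)

lemma sum_MU_dn (φ : κ → ι → ℕ → ℝ) (x : ι → ℕ) : ∑ u ∈ dn x, MU φ u = FF φ x := by
  simp only [MU, FF]
  rw [sum_comm]
  exact sum_congr rfl (fun h _ => sum_mu_dn _ _)

lemma sum_MU_sdiff (φ : κ → ι → ℕ → ℝ) {X z : ι → ℕ} (h : X ≤ z) :
    ∑ u ∈ dn z \ dn X, MU φ u = FF φ z - FF φ X := by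
  have hsub : dn X ⊆ dn z := by
    intro u hu
    rw [mem_dn] at *
    exact hu.trans h
  have := sum_sdiff (f := MU φ) hsub
  rw [sum_MU_dn, sum_MU_dn] at this
  linarith

/-- mass of the last steps from `X` to `z` -/
def last (φ : ι → ℕ → ℝ) (X z : ι → ℕ) : ℝ :=
  ∏ j, (if X j < z j then inc (φ j) (z j) else φ j (X j))

def last' (φ : ι → ℕ → ℝ) (X z : ι → ℕ) (j : ι) : ℝ :=
  ∏ k, (if k = j then φ k (z k - 1) else if X k < z k then inc (φ k) (z k) else φ k (X k))

lemma sum_mu_last (φ : ι → ℕ → ℝ) {X z : ι → ℕ} (h : X < z) :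
    ∑ u ∈ (dn z \ dn X).filter (fun u => X ⊔ u = z), mu φ u = last φ X z := by
  have hset : (dn z \ dn X).filter (fun u => X ⊔ u = z) =
      Fintype.piFinset (fun j => if X j < z j then {z j} else range (X j + 1)) := by
    ext u
    simp only [mem_filter, mem_sdiff, mem_dn, Fintype.mem_piFinset]
    obtain ⟨hle, i, hi⟩ := Pi.lt_def.1 h
    constructor
    · rintro ⟨⟨h1, h2⟩, h3⟩ j
      have hj : max (X j) (u j) = z j := congrFun h3 j
      split_ifs with hlt
      · simp only [mem_singleton]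
        rcases max_choice (X j) (u j) with h4 | h4 <;> omega
      · simp only [mem_range]
        have h5 : u j ≤ z j := h1 j
        have h6 : X j ≤ z j := hle j
        omega
    · intro hu
      have hu' : ∀ j, (X j < z j → u j = z j) ∧ (¬ X j < z j → u j ≤ X j) := by
        intro j
        have := hu j
        split_ifs at this with hlt
        · simp only [mem_singleton] at this
          exact ⟨fun _ => this, fun h => absurd hlt h⟩
        · simp only [mem_range] at this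
          exact ⟨fun h => absurd h hlt, fun _ => by omega⟩
      refine ⟨⟨fun j => ?_, fun hh => ?_⟩, ?_⟩
      · by_cases hj : X j < z j
        · exact ((hu' j).1 hj).le
        · exact ((hu' j).2 hj).trans (hle j)
      · have h5 : u i ≤ X i := hh i
        have h6 := (hu' i).1 hi
        omega
      · ext j
        show max (X j) (u j) = z j
        by_cases hj : X j < z j
        · rw [(hu' j).1 hj]; omega
        · have h5 := (hu' j).2 hj
          have h6 : X j ≤ z j := hle j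
          omega
  rw [hset, sum_mu_pi, last]
  refine prod_congr rfl (fun j _ => ?_)
  split_ifs
  · simp
  · exact sum_inc _ _

lemma last_le {φ : κ → ι → ℕ → ℝ} (hφ : Good φ) (h : κ) {X z : ι → ℕ} (hX : X ≤ z) :
    last (φ h) X z ≤ gg (φ h) z := by
  refine prod_le_prod (fun j _ => ?_) (fun j _ => ?_)
  · split_ifs
    · exact inc_nonneg (hφ.h0 h j) (hφ.hm h j) _
    · exact nn (hφ.h0 h j) (hφ.hm h j) _
  · split_ifs
    · exact inc_le (hφ.h0 h j) (hφ.hm h j) _
    · exact hφ.hm h j (hX j)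

lemma last_nonneg {φ : κ → ι → ℕ → ℝ} (hφ : Good φ) (h : κ) {X z : ι → ℕ} :
    0 ≤ last (φ h) X z := by
  refine prod_nonneg (fun j _ => ?_)
  split_ifs
  · exact inc_nonneg (hφ.h0 h j) (hφ.hm h j) _
  · exact nn (hφ.h0 h j) (hφ.hm h j) _

lemma last'_nonneg {φ : κ → ι → ℕ → ℝ} (hφ : Good φ) (h : κ) {X z : ι → ℕ} {j : ι} :
    0 ≤ last' (φ h) X z j := by
  refine prod_nonneg (fun j _ => ?_)
  split_ifs
  · exact nn (hφ.h0 h j) (hφ.hm h j) _
  · exact inc_nonneg (hφ.h0 h j) (hφ.hm h j) _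
  · exact nn (hφ.h0 h j) (hφ.hm h j) _

lemma last_le_last' {φ : κ → ι → ℕ → ℝ} (hφ : Good φ) (h : κ) {X z : ι → ℕ} {j : ι} {C : ℝ}
    (hj : X j < z j) (hC : inc (φ h j) (z j) ≤ C * φ h j (z j - 1)) :
    last (φ h) X z ≤ C * last' (φ h) X z j := by
  rw [last, last', ← mul_prod_erase univ _ (mem_univ j), ← mul_prod_erase univ _ (mem_univ j)]
  simp only [if_true, hj]
  rw [← mul_assoc]
  have he : ∏ x ∈ univ.erase j, (if X x < z x then inc (φ h x) (z x) else φ h x (X x)) =
      ∏ x ∈ univ.erase j, (if x = j then φ h x (z x - 1) else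
        if X x < z x then inc (φ h x) (z x) else φ h x (X x)) := by
    refine prod_congr rfl (fun k hk => ?_)
    rw [if_neg (ne_of_mem_erase hk)]
  rw [← he]
  refine mul_le_mul_of_nonneg_right hC (prod_nonneg (fun k _ => ?_))
  split_ifs
  · exact inc_nonneg (hφ.h0 h k) (hφ.hm h k) _
  · exact nn (hφ.h0 h k) (hφ.hm h k) _

/-- the set of admissible atoms for a shortened last step -/
def US (X z : ι → ℕ) (j : ι) : Finset (ι → ℕ) :=
  Fintype.piFinset (fun k => if k = j then range (z k) else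
    if X k < z k then {z k} else range (X k + 1))

lemma sum_mu_last' (φ : ι → ℕ → ℝ) {X z : ι → ℕ} {j : ι} (hj : X j < z j) :
    ∑ u ∈ US X z j, mu φ u = last' φ X z j := by
  rw [US, sum_mu_pi, last']
  refine prod_congr rfl (fun k _ => ?_)
  split_ifs with h1 h2
  · subst h1
    obtain ⟨m, hm⟩ : ∃ m, z k = m + 1 := ⟨z k - 1, by omega⟩
    rw [hm, sum_inc]; simp
  · simp
  · exact sum_inc _ _

/-- the relation between z, the index j and the point y covering the j-th predecessor -/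
def Cond (X z y : ι → ℕ) (j : ι) : Prop :=
  X j < z j ∧ z j = y j + 1 ∧ ∀ k, k ≠ j → z k ≤ y k

lemma US_sub {X z y : ι → ℕ} {j : ι} (hX : X ≤ z) (hc : Cond X z y j)
    (h2 : ∃ k, k ≠ j ∧ X k < z k) {u : ι → ℕ} (hu : u ∈ US X z j) : u ∈ dn y \ dn X := by
  rw [US, Fintype.mem_piFinset] at hu
  rw [mem_sdiff, mem_dn, mem_dn]
  constructor
  · intro k
    have := hu k
    show u k ≤ y k
    split_ifs at this with h1 h3
    · subst h1
      simp only [mem_range] at this
      have := hc.2.1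
      omega
    · simp only [mem_singleton] at this
      rw [this]
      exact hc.2.2 k h1
    · simp only [mem_range] at this
      have h4 := hc.2.2 k h1
      have h5 : X k ≤ z k := hX k
      omega
  · intro hle
    obtain ⟨k, hk, hlt⟩ := h2
    have h5 := hu k
    rw [if_neg hk, if_pos hlt] at h5
    simp only [mem_singleton] at h5
    have h6 : u k ≤ X k := hle k
    omega

lemma US_inj {X z z' y : ι → ℕ} {j : ι} (hX : X ≤ z) (hX' : X ≤ z') (hc : Cond X z y j)
    (hc' : Cond X z' y j) {u : ι → ℕ} (hu : u ∈ US X z j) (hu' : u ∈ US X z' j) : z = z' := by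
  rw [US, Fintype.mem_piFinset] at hu hu'
  ext k
  by_cases hk : k = j
  · subst hk
    rw [hc.2.1, hc'.2.1]
  · have h1 := hu k
    have h2 := hu' k
    rw [if_neg hk] at h1 h2
    have h3 : X k ≤ z k := hX k
    have h4 : X k ≤ z' k := hX' k
    split_ifs at h1 h2 <;> simp only [mem_singleton, mem_range] at h1 h2 <;> omega



lemma last'_sum_le {φ : κ → ι → ℕ → ℝ} (hφ : Good φ) {X y : ι → ℕ} (j : ι) (hXy : X ≤ y)
    (W : Finset (ι → ℕ)) (hW : ∀ z ∈ W, X ≤ z ∧ Cond X z y j ∧ ∃ k, k ≠ j ∧ X k < z k) :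
    ∑ z ∈ W, ∑ h, last' (φ h) X z j ≤ FF φ y - FF φ X := by
  classical
  have h1 : ∀ z ∈ W, ∑ h, last' (φ h) X z j = ∑ u ∈ US X z j, MU φ u := by
    intro z hz
    simp only [MU]
    rw [sum_comm]
    exact sum_congr rfl (fun h _ => (sum_mu_last' (φ h) (hW z hz).2.1.1).symm)
  rw [sum_congr rfl h1, ← sum_biUnion]
  · rw [← sum_MU_sdiff φ hXy]
    refine sum_le_sum_of_subset_of_nonneg ?_ (fun u _ _ => MU_nonneg hφ u)
    intro u hu
    rw [mem_biUnion] at hu
    obtain ⟨z, hz, hu⟩ := hu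
    obtain ⟨h2, h3, h4⟩ := hW z hz
    exact US_sub h2 h3 h4 hu
  · intro z hz z' hz' hne
    rw [Function.onFun, disjoint_left]
    intro u hu hu'
    exact hne (US_inj (hW z hz).1 (hW z' hz').1 (hW z hz).2.1 (hW z' hz').2.1 hu hu')

lemma gg_update (φ : ι → ℕ → ℝ) (x : ι → ℕ) (i : ι) (v : ℕ) :
    gg φ (Function.update x i v) = φ i v * ∏ k ∈ univ.erase i, φ k (x k) := by
  rw [gg, ← mul_prod_erase univ _ (mem_univ i)]
  congr 1
  · simp
  · refine prod_congr rfl (fun k hk => ?_)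
    rw [Function.update_of_ne (ne_of_mem_erase hk)]

lemma gg_split (φ : ι → ℕ → ℝ) (x : ι → ℕ) (i : ι) :
    gg φ x = φ i (x i) * ∏ k ∈ univ.erase i, φ k (x k) := by
  rw [gg, ← mul_prod_erase univ _ (mem_univ i)]

lemma gg_update_ge {φ : κ → ι → ℕ → ℝ} (hφ : Good φ) (h : κ) (x : ι → ℕ) (i : ι) (v : ℕ) (ρ : ℝ)
    (hv : ρ * φ h i (x i) ≤ φ h i v) :
    ρ * gg (φ h) x ≤ gg (φ h) (Function.update x i v) := by
  rw [gg_update, gg_split (φ h) x i, ← mul_assoc]
  exact mul_le_mul_of_nonneg_right hv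
    (prod_nonneg (fun k _ => nn (hφ.h0 h k) (hφ.hm h k) _))

/-- hypotheses on the pair of families -/
structure Sep (φ : κ → ι → ℕ → ℝ) (t : ℝ) (Y Z : Finset (ι → ℕ)) : Prop where
  hY : ∀ y ∈ Y, FF φ y < t
  hZ : ∀ z ∈ Z, t ≤ FF φ z
  hc : ∀ z ∈ Z, ∀ x, x < z → ∃ y ∈ Y, x ≤ y

lemma anti {φ : κ → ι → ℕ → ℝ} (hφ : Good φ) {t : ℝ} {Y Z : Finset (ι → ℕ)} (hS : Sep φ t Y Z)
    {z z' : ι → ℕ} (hz : z ∈ Z) (hz' : z' ∈ Z) (hle : z ≤ z') : z = z' := by
  by_contra hne
  obtain ⟨y, hy, hzy⟩ := hS.hc z' hz' z (lt_of_le_of_ne hle hne)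
  linarith [hS.hY y hy, hS.hZ z hz, FF_mono hφ hzy]

/-- covering by a point of `Y` -/
lemma cover {φ : κ → ι → ℕ → ℝ} (hφ : Good φ) {t : ℝ} {Y Z : Finset (ι → ℕ)} (hS : Sep φ t Y Z)
    {X z : ι → ℕ} (hz : z ∈ Z) (hX : X ≤ z) {j : ι} (hj : X j < z j) :
    ∃ y ∈ up Y X, Cond X z y j := by
  have hlt : Function.update z j (z j - 1) < z := by
    refine Pi.lt_def.2 ⟨fun k => ?_, j, ?_⟩
    · by_cases hk : k = j
      · subst hk; rw [Function.update_self]; exact Nat.sub_le _ _
      · rw [Function.update_of_ne hk]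
    · rw [Function.update_self]; omega
  obtain ⟨y, hy, hzy⟩ := hS.hc z hz _ hlt
  have h1 : ∀ k, k ≠ j → z k ≤ y k := by
    intro k hk
    have := hzy k
    rwa [Function.update_of_ne hk] at this
  have h2 : z j - 1 ≤ y j := by
    have := hzy j
    rwa [Function.update_self] at this
  have h3 : y j < z j := by
    by_contra hcon
    have : z ≤ y := by
      intro k
      by_cases hk : k = j
      · subst hk; exact not_lt.1 hcon
      · exact h1 k hk
    linarith [hS.hY y hy, hS.hZ z hz, FF_mono hφ this]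
  refine ⟨y, mem_up.2 ⟨hy, ?_⟩, hj, by omega, h1⟩
  intro k
  by_cases hk : k = j
  · subst hk; show X k ≤ y k; omega
  · exact (hX k).trans (h1 k hk)

/-- the fibre lemma -/
lemma fibre {φ : κ → ι → ℕ → ℝ} (hφ : Good φ) {t : ℝ} {Y Z : Finset (ι → ℕ)} (hS : Sep φ t Y Z)
    (h : κ) {X y : ι → ℕ} (j : ι) (C ρ : ℝ) (hC : 0 ≤ C) (hρ : 1 + C < ρ) (W : Finset (ι → ℕ))
    (hWZ : W ⊆ Z)
    (hW : ∀ z ∈ W, X ≤ z ∧ Cond X z y j ∧ φ h j (y j + 1) = ρ * φ h j (y j) ∧
      (∀ k, X k < z k → ρ * φ h k (z k - 1) ≤ φ h k (z k)) ∧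
      0 < gg (φ h) z ∧ gg (φ h) y ≤ (1 + C) * gg (φ h) z) :
    W.card ≤ Fintype.card ι + 1 := by
  classical
  set T : ι → ℕ := fun i => W.sup (fun z => z i) with hT
  have hTle : ∀ z ∈ W, ∀ i, z i ≤ T i := fun z hz i => le_sup (f := fun z => z i) hz
  have hTy : ∀ i, i ≠ j → T i ≤ y i := by
    intro i hi
    exact Finset.sup_le (fun z hz => (hW z hz).2.1.2.2 i hi)
  have hTe : ∀ z ∈ W, ∀ i, z i < T i → i ≠ j ∧ ρ * φ h i (z i) ≤ φ h i (T i) := by
    intro z hz i hlt
    have hne : W.Nonempty := ⟨z, hz⟩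
    obtain ⟨z', hz', he⟩ := exists_mem_eq_sup W hne (fun z => z i)
    have he' : T i = z' i := he
    refine ⟨?_, ?_⟩
    · rintro rfl
      have := (hW z hz).2.1.2.1
      have := (hW z' hz').2.1.2.1
      omega
    · have h1 : X i ≤ z i := (hW z hz).1 i
      have h2 := (hW z' hz').2.2.2.1 i (by omega)
      rw [he']
      refine le_trans ?_ h2
      refine mul_le_mul_of_nonneg_left (hφ.hm h i (by omega)) (by linarith)
  have hkey : ∀ z ∈ W, ∀ i i', z i < T i → z i' < T i' → i = i' := by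
    intro z hz i i' hi hi'
    by_contra hne
    obtain ⟨hij, h1⟩ := hTe z hz i hi
    obtain ⟨hij', h1'⟩ := hTe z hz i' hi'
    obtain ⟨hXz, ⟨hc1, hc2, hc3⟩, hρe, hall, hpos, hle⟩ := hW z hz
    set w0 := Function.update z j (y j) with hw0
    set w1 := Function.update w0 i (T i) with hw1
    set w2 := Function.update w1 i' (T i') with hw2
    have e0 : gg (φ h) z = ρ * gg (φ h) w0 := by
      rw [hw0, gg_update, gg_split (φ h) z j, hc2, hρe, mul_assoc]
    have w0i : w0 i = z i := by rw [hw0, Function.update_of_ne hij]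
    have w0i' : w0 i' = z i' := by rw [hw0, Function.update_of_ne hij']
    have e1 : ρ * gg (φ h) w0 ≤ gg (φ h) w1 := gg_update_ge hφ h w0 i (T i) ρ (by rw [w0i]; exact h1)
    have e2 : ρ * gg (φ h) w1 ≤ gg (φ h) w2 := by
      refine gg_update_ge hφ h w1 i' (T i') ρ ?_
      rw [hw1, Function.update_of_ne (Ne.symm hne), w0i']; exact h1'
    have e3 : gg (φ h) w2 ≤ gg (φ h) y := by
      refine gg_mono hφ h ?_
      intro k
      by_cases hk : k = i'
      · subst hk; rw [hw2, Function.update_self]; exact hTy _ hij'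
      · rw [hw2, Function.update_of_ne hk]
        by_cases hk2 : k = i
        · subst hk2; rw [hw1, Function.update_self]; exact hTy _ hij
        · rw [hw1, Function.update_of_ne hk2]
          by_cases hk3 : k = j
          · subst hk3; rw [hw0, Function.update_self]
          · rw [hw0, Function.update_of_ne hk3]; exact hc3 k hk3
    have hρ0 : 0 < ρ := by linarith
    have e4 : ρ * gg (φ h) z ≤ (1 + C) * gg (φ h) z := by
      calc ρ * gg (φ h) z = ρ * (ρ * gg (φ h) w0) := by rw [e0]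
        _ ≤ ρ * gg (φ h) w1 := mul_le_mul_of_nonneg_left e1 hρ0.le
        _ ≤ gg (φ h) w2 := e2
        _ ≤ gg (φ h) y := e3
        _ ≤ (1 + C) * gg (φ h) z := hle
    have := le_of_mul_le_mul_right e4 hpos
    linarith
  -- the injection
  let e : (ι → ℕ) → Option ι := fun z => if hz : ∃ i, z i < T i then some hz.choose else none
  have hinj : Set.InjOn e W := by
    intro z hz z' hz' hee
    have hz0 : z ∈ W := hz
    have hz0' : z' ∈ W := hz'
    simp only [e] at hee
    by_cases h1 : ∃ i, z i < T i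
    · by_cases h2 : ∃ i, z' i < T i
      · rw [dif_pos h1, dif_pos h2] at hee
        have hi := h1.choose_spec
        have hi' := h2.choose_spec
        have hee' : h1.choose = h2.choose := Option.some.inj hee
        rw [← hee'] at hi'
        set i := h1.choose
        have hoff : ∀ k, k ≠ i → z k = z' k := by
          intro k hk
          have a1 : ¬ z k < T k := fun hlt => hk (hkey z hz0 k i hlt hi)
          have a2 : ¬ z' k < T k := fun hlt => hk (hkey z' hz0' k i hlt hi')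
          have a3 := hTle z hz0 k
          have a4 := hTle z' hz0' k
          omega
        rcases le_total (z i) (z' i) with hle | hle
        · refine anti hφ hS (hWZ hz0) (hWZ hz0') ?_
          intro k
          by_cases hk : k = i
          · rw [hk]; exact hle
          · exact (hoff k hk).le
        · refine (anti hφ hS (hWZ hz0') (hWZ hz0) ?_).symm
          intro k
          by_cases hk : k = i
          · rw [hk]; exact hle
          · exact (hoff k hk).ge
      · rw [dif_pos h1, dif_neg h2] at hee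
        exact absurd hee (by simp)
    · by_cases h2 : ∃ i, z' i < T i
      · rw [dif_neg h1, dif_pos h2] at hee
        exact absurd hee (by simp)
      · push Not at h1 h2
        ext k
        exact le_antisymm ((hTle z hz0 k).trans (h2 k)) ((hTle z' hz0' k).trans (h1 k))
  have := Finset.card_le_card_of_injOn e (fun z _ => mem_univ (e z)) hinj
  simpa [Finset.card_univ] using this

section counting

variable {φ : κ → ι → ℕ → ℝ} {t : ℝ} {Y Z : Finset (ι → ℕ)} {X : ι → ℕ}

lemma lt_of_mem_up (hXZ : X ∉ Z) {z : ι → ℕ} (hz : z ∈ up Z X) : X < z :=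
  lt_of_le_of_ne (mem_up.1 hz).2 (fun h => hXZ (h ▸ (mem_up.1 hz).1))

lemma FX_lt (hφ : Good φ) (hS : Sep φ t Y Z) (hXZ : X ∉ Z) {z : ι → ℕ} (hz : z ∈ up Z X) :
    FF φ X < t ∧ (up Y X).Nonempty := by
  obtain ⟨y, hy, hXy⟩ := hS.hc z (mem_up.1 hz).1 X (lt_of_mem_up hXZ hz)
  exact ⟨(FF_mono hφ hXy).trans_lt (hS.hY y hy), y, mem_up.2 ⟨hy, hXy⟩⟩

lemma sum_last_le (hφ : Good φ) {z : ι → ℕ} (hz : X < z) :
    ∑ h, last (φ h) X z ≤ FF φ z - FF φ X := by
  classical
  have h1 : ∑ h, last (φ h) X z = ∑ u ∈ (dn z \ dn X).filter (fun u => X ⊔ u = z), MU φ u := by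
    simp only [MU]
    rw [sum_comm]
    exact sum_congr rfl (fun h _ => (sum_mu_last (φ h) hz).symm)
  rw [h1, ← sum_MU_sdiff φ hz.le]
  exact sum_le_sum_of_subset_of_nonneg (filter_subset _ _) (fun u _ _ => MU_nonneg hφ u)

open Classical in
/-- those z where the last step is a single coordinate -/
noncomputable def A1 (Z : Finset (ι → ℕ)) (X : ι → ℕ) : Finset (ι → ℕ) :=
  (up Z X).filter (fun z => ∃ j, X j < z j ∧ ∀ k, k ≠ j → ¬ X k < z k)

lemma card_A1 (hφ : Good φ) (hS : Sep φ t Y Z) : (A1 Z X).card ≤ Fintype.card ι := by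
  classical
  by_cases hne : (A1 Z X).Nonempty
  swap
  · rw [not_nonempty_iff_eq_empty] at hne; rw [hne]; simp
  have hex : ∀ z ∈ A1 Z X, ∃ j, X j < z j ∧ ∀ k, k ≠ j → ¬ X k < z k := by
    intro z hz; exact (mem_filter.1 hz).2
  obtain ⟨z0, hz0⟩ := hne
  let e : (ι → ℕ) → ι := fun z => if hz : z ∈ A1 Z X then (hex z hz).choose else (hex z0 hz0).choose
  have hinj : Set.InjOn e (A1 Z X) := by
    intro z hz z' hz' hee
    have hz1 : z ∈ A1 Z X := hz
    have hz1' : z' ∈ A1 Z X := hz'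
    simp only [e, dif_pos hz1, dif_pos hz1'] at hee
    have h1 := (hex z hz1).choose_spec
    have h2 := (hex z' hz1').choose_spec
    rw [← hee] at h2
    set i := (hex z hz1).choose
    have hu := mem_up.1 (mem_filter.1 hz1).1
    have hu' := mem_up.1 (mem_filter.1 hz1').1
    have hoff : ∀ k, k ≠ i → z k = z' k := by
      intro k hk
      have a1 := h1.2 k hk
      have a2 := h2.2 k hk
      have a3 : X k ≤ z k := hu.2 k
      have a4 : X k ≤ z' k := hu'.2 k
      omega
    rcases le_total (z i) (z' i) with hle | hle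
    · refine anti hφ hS hu.1 hu'.1 ?_
      intro k
      by_cases hk : k = i
      · rw [hk]; exact hle
      · exact (hoff k hk).le
    · refine (anti hφ hS hu'.1 hu.1 ?_).symm
      intro k
      by_cases hk : k = i
      · rw [hk]; exact hle
      · exact (hoff k hk).ge
  have := Finset.card_le_card_of_injOn e (fun z _ => mem_univ (e z)) hinj
  simpa [Finset.card_univ] using this

def P4 (φ : κ → ι → ℕ → ℝ) (X : ι → ℕ) (C : ℝ) (h : κ) (z y : ι → ℕ) (j : ι) : Prop :=
  Cond X z y j ∧ 1 + C < φ h j (y j + 1) / φ h j (y j) ∧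
    φ h j (y j + 1) = φ h j (y j + 1) / φ h j (y j) * φ h j (y j) ∧
    (∀ k, X k < z k → φ h j (y j + 1) / φ h j (y j) * φ h k (z k - 1) ≤ φ h k (z k)) ∧
      0 < gg (φ h) z ∧ gg (φ h) y ≤ (1 + C) * gg (φ h) z

def P5 (φ : κ → ι → ℕ → ℝ) (X : ι → ℕ) (h : κ) (z : ι → ℕ) : Prop :=
  (∀ k, X k < z k → φ h k (z k - 1) = 0) ∧ (∀ k, 0 < φ h k (z k))

open Classical in
lemma card_P5 (hφ : Good φ) (h : κ) :
    ((up Z X).filter (fun z => P5 φ X h z)).card ≤ 1 := by
  rw [card_le_one]
  have key : ∀ z ∈ (up Z X).filter (fun z => P5 φ X h z), ∀ z' ∈ (up Z X).filter (fun z => P5 φ X h z),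
      z ≤ z' := by
    intro z hz z' hz' k
    show z k ≤ z' k
    rw [mem_filter, mem_up] at hz hz'
    by_cases hk : X k < z k
    · by_contra hcon
      have h1 := hz.2.1 k hk
      have h2 := hz'.2.2 k
      have h3 : φ h k (z' k) ≤ φ h k (z k - 1) := hφ.hm h k (by omega)
      linarith
    · have h1 : X k ≤ z k := hz.1.2 k
      have h2 : X k ≤ z' k := hz'.1.2 k
      omega
  intro z hz z' hz'
  exact le_antisymm (key z hz z' hz') (key z' hz' z hz)

open Classical in
lemma card_P4 (hφ : Good φ) (hS : Sep φ t Y Z) {C : ℝ} (hC : 0 ≤ C) (h : κ) :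
    ((up Z X).filter (fun z => ∃ y ∈ up Y X, ∃ j, P4 φ X C h z y j)).card ≤
      (up Y X).card * (Fintype.card ι * (Fintype.card ι + 1)) := by
  have hsub : (up Z X).filter (fun z => ∃ y ∈ up Y X, ∃ j, P4 φ X C h z y j) ⊆
      (up Y X).biUnion (fun y => (univ : Finset ι).biUnion (fun j =>
        (up Z X).filter (fun z => P4 φ X C h z y j))) := by
    intro z hz
    rw [mem_filter] at hz
    obtain ⟨hz1, y, hy, j, hP⟩ := hz
    rw [mem_biUnion]
    refine ⟨y, hy, ?_⟩
    rw [mem_biUnion]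
    exact ⟨j, mem_univ j, mem_filter.2 ⟨hz1, hP⟩⟩
  refine (card_le_card hsub).trans ?_
  refine card_biUnion_le_card_mul _ _ _ (fun y _ => ?_)
  refine (card_biUnion_le_card_mul _ _ (Fintype.card ι + 1) (fun j _ => ?_)).trans_eq ?_
  · by_cases hne : ((up Z X).filter (fun z => P4 φ X C h z y j)).Nonempty
    · obtain ⟨z0, hz0⟩ := hne
      have h0 := (mem_filter.1 hz0).2
      refine fibre hφ hS h j C (φ h j (y j + 1) / φ h j (y j)) hC h0.2.1 _
        (fun z hz => (mem_up.1 (mem_filter.1 hz).1).1) (X := X) (y := y) ?_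
      intro z hz
      rw [mem_filter] at hz
      exact ⟨(mem_up.1 hz.1).2, hz.2.1, hz.2.2.2.1, hz.2.2.2.2.1, hz.2.2.2.2.2.1, hz.2.2.2.2.2.2⟩
    · rw [not_nonempty_iff_eq_empty] at hne; rw [hne]; simp
  · simp [Finset.card_univ]

open Classical in
noncomputable def T3 (φ : κ → ι → ℕ → ℝ) (t : ℝ) (Y : Finset (ι → ℕ)) (X : ι → ℕ) (C : ℝ) (h : κ)
    (z : ι → ℕ) : ℝ :=
  ∑ y ∈ up Y X, ∑ j, if Cond X z y j ∧ (∃ k, k ≠ j ∧ X k < z k) then
    C * last' (φ h) X z j / (t - FF φ X) else 0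

lemma T3_nonneg (hφ : Good φ) {C : ℝ} (hC : 0 ≤ C) (hX : FF φ X < t) (h : κ) (z : ι → ℕ) :
    0 ≤ T3 φ t Y X C h z := by
  refine sum_nonneg (fun y _ => sum_nonneg (fun j _ => ?_))
  split_ifs
  · exact div_nonneg (mul_nonneg hC (last'_nonneg hφ h)) (by linarith)
  · exact le_rfl

open Classical in
lemma pointwise (hφ : Good φ) (hS : Sep φ t Y Z) (hXZ : X ∉ Z) {C : ℝ} (hC : 0 < C) (h : κ)
    {z : ι → ℕ} (hz : z ∈ up Z X) (hz1 : z ∉ A1 Z X) :
    last (φ h) X z / (FF φ z - FF φ X) ≤ 1 / C + T3 φ t Y X C h z +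
      (if ∃ y ∈ up Y X, ∃ j, P4 φ X C h z y j then 1 else 0) + (if P5 φ X h z then 1 else 0) := by
  have hXz := lt_of_mem_up hXZ hz
  have hXt := (FX_lt hφ hS hXZ hz).1
  have hzZ := (mem_up.1 hz).1
  have htz : t ≤ FF φ z := hS.hZ z hzZ
  have hD : 0 < FF φ z - FF φ X := by linarith
  have hT3 := T3_nonneg (Y := Y) hφ hC.le hXt h z
  have hL := last_nonneg hφ h (X := X) (z := z)
  have hlast_le := last_le hφ h hXz.le
  have hI4 : (0:ℝ) ≤ (if ∃ y ∈ up Y X, ∃ j, P4 φ X C h z y j then 1 else 0) := by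
    split_ifs <;> norm_num
  have hI5 : (0:ℝ) ≤ (if P5 φ X h z then 1 else 0) := by
    split_ifs <;> norm_num
  have hC1 : 0 < 1 / C := by positivity
  have hmulti : ∀ j, X j < z j → ∃ k, k ≠ j ∧ X k < z k := by
    intro j hj
    by_contra hcon
    push Not at hcon
    exact hz1 (mem_filter.2 ⟨hz, j, hj, fun k hk => not_lt.2 (hcon k hk)⟩)
  have hq1 : last (φ h) X z / (FF φ z - FF φ X) ≤ 1 := by
    rw [div_le_one hD]
    refine le_trans ?_ (sum_last_le hφ hXz)
    exact single_le_sum (f := fun h => last (φ h) X z) (fun h' _ => last_nonneg hφ h') (mem_univ h)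
  by_cases hsmall : last (φ h) X z / (FF φ z - FF φ X) < 1 / C
  · linarith
  push Not at hsmall
  -- the case of a cheap coordinate
  by_cases hcheap : ∃ j, X j < z j ∧ inc (φ h j) (z j) ≤ C * φ h j (z j - 1)
  · obtain ⟨j, hj, hinc⟩ := hcheap
    obtain ⟨y, hy, hcond⟩ := cover hφ hS hzZ hXz.le hj
    have h1 : C * last' (φ h) X z j / (t - FF φ X) ≤ T3 φ t Y X C h z := by
      have hnn : ∀ y j, 0 ≤ (if Cond X z y j ∧ (∃ k, k ≠ j ∧ X k < z k) then
          C * last' (φ h) X z j / (t - FF φ X) else 0) := by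
        intro y j
        split_ifs
        · exact div_nonneg (mul_nonneg hC.le (last'_nonneg hφ h)) (by linarith)
        · exact le_rfl
      calc C * last' (φ h) X z j / (t - FF φ X) = (if Cond X z y j ∧ (∃ k, k ≠ j ∧ X k < z k) then
            C * last' (φ h) X z j / (t - FF φ X) else 0) := by rw [if_pos ⟨hcond, hmulti j hj⟩]
        _ ≤ ∑ j, (if Cond X z y j ∧ (∃ k, k ≠ j ∧ X k < z k) then
            C * last' (φ h) X z j / (t - FF φ X) else 0) :=
            single_le_sum (f := fun j => (if Cond X z y j ∧ (∃ k, k ≠ j ∧ X k < z k) then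
            C * last' (φ h) X z j / (t - FF φ X) else 0)) (fun j _ => hnn y j) (mem_univ j)
        _ ≤ T3 φ t Y X C h z :=
            single_le_sum (f := fun y => ∑ j, (if Cond X z y j ∧ (∃ k, k ≠ j ∧ X k < z k) then
            C * last' (φ h) X z j / (t - FF φ X) else 0))
              (fun y _ => sum_nonneg (fun j _ => hnn y j)) hy
    have h2 : last (φ h) X z / (FF φ z - FF φ X) ≤ C * last' (φ h) X z j / (t - FF φ X) := by
      have hl := last_le_last' hφ h hj hinc
      have hnn : 0 ≤ C * last' (φ h) X z j := mul_nonneg hC.le (last'_nonneg hφ h)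
      calc last (φ h) X z / (FF φ z - FF φ X) ≤ C * last' (φ h) X z j / (FF φ z - FF φ X) :=
            div_le_div_of_nonneg_right hl hD.le
        _ ≤ C * last' (φ h) X z j / (t - FF φ X) :=
            div_le_div_of_nonneg_left hnn (by linarith) (by linarith)
    linarith
  push Not at hcheap
  have hLpos : 0 < last (φ h) X z := by
    by_contra hcon
    have : last (φ h) X z = 0 := le_antisymm (not_lt.1 hcon) hL
    rw [this, zero_div] at hsmall
    linarith
  have hzpos : ∀ k, 0 < φ h k (z k) := by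
    intro k
    have hne : (if X k < z k then inc (φ h k) (z k) else φ h k (X k)) ≠ 0 := by
      intro h0
      exact hLpos.ne' (prod_eq_zero (mem_univ k) h0)
    by_cases hk : X k < z k
    · rw [if_pos hk] at hne
      have h1 := inc_nonneg (hφ.h0 h k) (hφ.hm h k) (z k)
      have h2 := inc_le (hφ.h0 h k) (hφ.hm h k) (z k)
      exact lt_of_lt_of_le (lt_of_le_of_ne h1 (Ne.symm hne)) h2
    · rw [if_neg hk] at hne
      have h1 := nn (hφ.h0 h k) (hφ.hm h k) (X k)
      exact lt_of_lt_of_le (lt_of_le_of_ne h1 (Ne.symm hne)) (hφ.hm h k (hXz.le k))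
  by_cases h5 : ∀ k, X k < z k → φ h k (z k - 1) = 0
  · have : P5 φ X h z := ⟨h5, hzpos⟩
    rw [if_pos this]
    linarith
  · push Not at h5
    obtain ⟨k0, hk0, hk0'⟩ := h5
    -- minimise the ratio
    let G : Finset ι := univ.filter (fun k => X k < z k ∧ φ h k (z k - 1) ≠ 0)
    have hG : G.Nonempty := ⟨k0, mem_filter.2 ⟨mem_univ _, hk0, hk0'⟩⟩
    obtain ⟨j, hjG, hjmin⟩ := exists_min_image G (fun k => φ h k (z k) / φ h k (z k - 1)) hG
    obtain ⟨-, hj, hjne⟩ := mem_filter.1 hjG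
    have hjpos : 0 < φ h j (z j - 1) :=
      lt_of_le_of_ne (nn (hφ.h0 h j) (hφ.hm h j) _) (Ne.symm hjne)
    obtain ⟨y, hy, hcond⟩ := cover hφ hS hzZ hXz.le hj
    have hyj : y j = z j - 1 := by have := hcond.2.1; omega
    have hyj' : y j + 1 = z j := hcond.2.1.symm
    have hP : P4 φ X C h z y j := by
      refine ⟨hcond, ?_, ?_, ?_, ?_, ?_⟩
      · rw [hyj', hyj, lt_div_iff₀ hjpos]
        have := hcheap j hj
        rw [inc_eq (by omega)] at this
        linarith
      · rw [hyj', hyj, div_mul_cancel₀ _ hjne]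
      · intro k hk
        rw [hyj', hyj]
        by_cases hk0 : φ h k (z k - 1) = 0
        · rw [hk0, mul_zero]; exact (hzpos k).le
        · have hkpos : 0 < φ h k (z k - 1) :=
            lt_of_le_of_ne (nn (hφ.h0 h k) (hφ.hm h k) _) (Ne.symm hk0)
          have h6 := hjmin k (mem_filter.2 ⟨mem_univ _, hk, hk0⟩)
          rwa [le_div_iff₀ hkpos] at h6
      · exact prod_pos (fun k _ => hzpos k)
      · have hyup := mem_up.1 hy
        have h7 := gg_sub_le hφ h hyup.2
        have h8 := hS.hY y hyup.1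
        have h9 : gg (φ h) X ≤ gg (φ h) z := gg_mono hφ h hXz.le
        have h10 : FF φ z - FF φ X ≤ C * last (φ h) X z := by
          rw [div_le_div_iff₀ hC hD] at hsmall
          linarith
        have h11 : C * last (φ h) X z ≤ C * gg (φ h) z := mul_le_mul_of_nonneg_left hlast_le hC.le
        linarith
    rw [if_pos ⟨y, hy, j, hP⟩]
    linarith

lemma sum_T3 (hφ : Good φ) {C : ℝ} (hC : 0 < C) (hXt : FF φ X < t) (hS : Sep φ t Y Z) :
    ∑ z ∈ up Z X, ∑ h, T3 φ t Y X C h z ≤ C * Fintype.card ι * (up Y X).card := by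
  classical
  have hD : 0 < t - FF φ X := by linarith
  have h1 : ∑ z ∈ up Z X, ∑ h, T3 φ t Y X C h z =
      ∑ y ∈ up Y X, ∑ j, ∑ z ∈ up Z X, ∑ h, (if Cond X z y j ∧ (∃ k, k ≠ j ∧ X k < z k) then
        C * last' (φ h) X z j / (t - FF φ X) else 0) := by
    simp only [T3]
    calc ∑ z ∈ up Z X, ∑ h, ∑ y ∈ up Y X, ∑ j, (if Cond X z y j ∧ (∃ k, k ≠ j ∧ X k < z k) then
        C * last' (φ h) X z j / (t - FF φ X) else 0)
        = ∑ z ∈ up Z X, ∑ y ∈ up Y X, ∑ h, ∑ j, (if Cond X z y j ∧ (∃ k, k ≠ j ∧ X k < z k) then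
        C * last' (φ h) X z j / (t - FF φ X) else 0) := by
          refine sum_congr rfl (fun z _ => ?_); rw [sum_comm]
      _ = ∑ y ∈ up Y X, ∑ z ∈ up Z X, ∑ h, ∑ j, (if Cond X z y j ∧ (∃ k, k ≠ j ∧ X k < z k) then
        C * last' (φ h) X z j / (t - FF φ X) else 0) := by rw [sum_comm]
      _ = ∑ y ∈ up Y X, ∑ z ∈ up Z X, ∑ j, ∑ h, (if Cond X z y j ∧ (∃ k, k ≠ j ∧ X k < z k) then
        C * last' (φ h) X z j / (t - FF φ X) else 0) := by
          refine sum_congr rfl (fun y _ => sum_congr rfl (fun z _ => ?_)); rw [sum_comm]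
      _ = _ := by
          refine sum_congr rfl (fun y _ => ?_); rw [sum_comm]
  rw [h1]
  have h2 : ∀ y ∈ up Y X, ∀ j : ι, ∑ z ∈ up Z X, ∑ h,
      (if Cond X z y j ∧ (∃ k, k ≠ j ∧ X k < z k) then
        C * last' (φ h) X z j / (t - FF φ X) else 0) ≤ C := by
    intro y hy j
    have hyup := mem_up.1 hy
    have h3 : ∑ z ∈ up Z X, ∑ h,
      (if Cond X z y j ∧ (∃ k, k ≠ j ∧ X k < z k) then
        C * last' (φ h) X z j / (t - FF φ X) else 0) =
        C / (t - FF φ X) * ∑ z ∈ (up Z X).filter (fun z => Cond X z y j ∧ (∃ k, k ≠ j ∧ X k < z k)),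
          ∑ h, last' (φ h) X z j := by
      rw [mul_sum, sum_filter]
      refine sum_congr rfl (fun z _ => ?_)
      split_ifs
      · rw [mul_sum]
        refine sum_congr rfl (fun h _ => ?_)
        ring
      · simp
    rw [h3]
    have h4 := last'_sum_le hφ j hyup.2
      ((up Z X).filter (fun z => Cond X z y j ∧ (∃ k, k ≠ j ∧ X k < z k))) (by
        intro z hz
        rw [mem_filter] at hz
        exact ⟨(mem_up.1 hz.1).2, hz.2.1, hz.2.2⟩)
    have h5 := hS.hY y hyup.1
    calc C / (t - FF φ X) * _ ≤ C / (t - FF φ X) * (t - FF φ X) :=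
          mul_le_mul_of_nonneg_left (by linarith) (by positivity)
      _ = C := div_mul_cancel₀ _ hD.ne'
  calc _ ≤ ∑ y ∈ up Y X, ∑ _j : ι, C := sum_le_sum (fun y hy => sum_le_sum (fun j _ => h2 y hy j))
    _ = C * Fintype.card ι * (up Y X).card := by
      simp only [sum_const, card_univ, nsmul_eq_mul]; ring

/-- the constant -/
def PP (n m C : ℝ) : ℝ := n + C * n + m * (n * (n + 1)) + m

lemma first_part (hφ : Good φ) (hS : Sep φ t Y Z) (hXZ : X ∉ Z) {C : ℝ} (hC : 0 < C)
    (hne : (up Z X).Nonempty) :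
    ∑ z ∈ up Z X, ∑ h, last (φ h) X z / (FF φ z - FF φ X) ≤
      Fintype.card κ / C * (up Z X).card +
        PP (Fintype.card ι) (Fintype.card κ) C * (up Y X).card := by
  classical
  obtain ⟨z0, hz0⟩ := hne
  obtain ⟨hXt, hYne⟩ := FX_lt hφ hS hXZ hz0
  have hYc : (1:ℝ) ≤ (up Y X).card := by exact_mod_cast hYne.card_pos
  have hn0 : (0:ℝ) ≤ Fintype.card ι := Nat.cast_nonneg _
  have hm0 : (0:ℝ) ≤ Fintype.card κ := Nat.cast_nonneg _
  have hA1sub : A1 Z X ⊆ up Z X := filter_subset _ _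
  rw [← sum_sdiff hA1sub]
  have hA : ∑ z ∈ A1 Z X, ∑ h, last (φ h) X z / (FF φ z - FF φ X) ≤ Fintype.card ι := by
    calc _ ≤ ∑ z ∈ A1 Z X, (1:ℝ) := by
          refine sum_le_sum (fun z hz => ?_)
          have hz' := hA1sub hz
          have hXz := lt_of_mem_up hXZ hz'
          have htz := hS.hZ z (mem_up.1 hz').1
          rw [← sum_div, div_le_one (by linarith)]
          exact sum_last_le hφ hXz
      _ = (A1 Z X).card := by simp
      _ ≤ Fintype.card ι := by exact_mod_cast card_A1 hφ hS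
  have hB : ∑ z ∈ up Z X \ A1 Z X, ∑ h, last (φ h) X z / (FF φ z - FF φ X) ≤
      Fintype.card κ / C * (up Z X).card + C * Fintype.card ι * (up Y X).card +
        Fintype.card κ * ((up Y X).card * (Fintype.card ι * (Fintype.card ι + 1)))
        + Fintype.card κ := by
    calc _ ≤ ∑ z ∈ up Z X \ A1 Z X, ∑ h, (1 / C + T3 φ t Y X C h z +
            (if ∃ y ∈ up Y X, ∃ j, P4 φ X C h z y j then 1 else 0) +
            (if P5 φ X h z then 1 else 0)) := by
          refine sum_le_sum (fun z hz => sum_le_sum (fun h _ => ?_))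
          rw [mem_sdiff] at hz
          exact pointwise hφ hS hXZ hC h hz.1 hz.2
      _ ≤ ∑ z ∈ up Z X, ∑ h, (1 / C + T3 φ t Y X C h z +
            (if ∃ y ∈ up Y X, ∃ j, P4 φ X C h z y j then 1 else 0) +
            (if P5 φ X h z then 1 else 0)) := by
          refine sum_le_sum_of_subset_of_nonneg sdiff_subset (fun z _ _ => ?_)
          refine sum_nonneg (fun h _ => ?_)
          have h1 : 0 < 1 / C := by positivity
          have h2 := T3_nonneg (Y := Y) hφ hC.le hXt h z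
          have h3 : (0:ℝ) ≤ (if ∃ y ∈ up Y X, ∃ j, P4 φ X C h z y j then 1 else 0) := by
            split_ifs <;> norm_num
          have h4 : (0:ℝ) ≤ (if P5 φ X h z then 1 else 0) := by split_ifs <;> norm_num
          linarith
      _ = (∑ z ∈ up Z X, ∑ _h : κ, 1 / C) + (∑ z ∈ up Z X, ∑ h, T3 φ t Y X C h z) +
          (∑ z ∈ up Z X, ∑ h, (if ∃ y ∈ up Y X, ∃ j, P4 φ X C h z y j then (1:ℝ) else 0)) +
          (∑ z ∈ up Z X, ∑ h, (if P5 φ X h z then (1:ℝ) else 0)) := by
          simp only [sum_add_distrib]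
      _ ≤ _ := by
          have e1 : (∑ z ∈ up Z X, ∑ _h : κ, 1 / C) = Fintype.card κ / C * (up Z X).card := by
            simp only [sum_const, card_univ, nsmul_eq_mul]; ring
          have e2 := sum_T3 hφ hC hXt hS
          have e3 : (∑ z ∈ up Z X, ∑ h,
              (if ∃ y ∈ up Y X, ∃ j, P4 φ X C h z y j then (1:ℝ) else 0)) ≤
              Fintype.card κ * ((up Y X).card * (Fintype.card ι * (Fintype.card ι + 1))) := by
            rw [sum_comm]
            calc _ ≤ ∑ _h : κ, (((up Y X).card * (Fintype.card ι * (Fintype.card ι + 1)) : ℕ) : ℝ) := by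
                  refine sum_le_sum (fun h _ => ?_)
                  rw [← sum_filter, sum_const, nsmul_eq_mul, mul_one]
                  exact_mod_cast card_P4 hφ hS hC.le h
              _ = _ := by
                  simp only [sum_const, card_univ, nsmul_eq_mul]; push_cast; ring
          have e4 : (∑ z ∈ up Z X, ∑ h, (if P5 φ X h z then (1:ℝ) else 0)) ≤ Fintype.card κ := by
            rw [sum_comm]
            calc _ ≤ ∑ _h : κ, ((1 : ℕ) : ℝ) := by
                  refine sum_le_sum (fun h _ => ?_)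
                  rw [← sum_filter, sum_const, nsmul_eq_mul, mul_one]
                  exact_mod_cast card_P5 hφ h
              _ = _ := by simp
          linarith
  have hfin : (Fintype.card ι : ℝ) + Fintype.card κ ≤
      (Fintype.card ι + Fintype.card κ) * (up Y X).card := by
    nlinarith
  have : PP (Fintype.card ι) (Fintype.card κ) C * (up Y X).card =
      (Fintype.card ι + Fintype.card κ) * (up Y X).card + C * Fintype.card ι * (up Y X).card +
        Fintype.card κ * ((up Y X).card * (Fintype.card ι * (Fintype.card ι + 1))) := by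
    simp only [PP]; ring
  rw [this]
  linarith

lemma second_part (hφ : Good φ) (hS : Sep φ t Y Z) (hXZ : X ∉ Z) (hne : (up Z X).Nonempty)
    {α B : ℝ} (hα : 0 ≤ α) (hB : 0 ≤ B)
    (ih : ∀ X', X < X' → X' ∉ Z → α * (up Z X').card ≤ B * (up Y X').card) :
    α * (up Z X).card ≤ α * ∑ z ∈ up Z X, ∑ h, last (φ h) X z / (FF φ z - FF φ X) +
      B * (up Y X).card := by
  classical
  obtain ⟨z0, hz0⟩ := hne
  obtain ⟨hXt, hYne⟩ := FX_lt hφ hS hXZ hz0
  have hD : 0 < t - FF φ X := by linarith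
  let R : (ι → ℕ) → Finset (ι → ℕ) := fun z => (dn z \ dn X).filter (fun u => X ⊔ u ≠ z)
  -- decomposition of one
  have hone : ∀ z ∈ up Z X, (1:ℝ) = ∑ h, last (φ h) X z / (FF φ z - FF φ X) +
      ∑ u ∈ R z, MU φ u / (FF φ z - FF φ X) := by
    intro z hz
    have hXz := lt_of_mem_up hXZ hz
    have htz := hS.hZ z (mem_up.1 hz).1
    have hDz : 0 < FF φ z - FF φ X := by linarith
    have h1 : ∑ h, last (φ h) X z =
        ∑ u ∈ (dn z \ dn X).filter (fun u => X ⊔ u = z), MU φ u := by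
      simp only [MU]
      rw [sum_comm]
      exact sum_congr rfl (fun h _ => (sum_mu_last (φ h) hXz).symm)
    have h2 := sum_filter_add_sum_filter_not (dn z \ dn X) (fun u => X ⊔ u = z) (MU φ)
    rw [sum_MU_sdiff φ hXz.le, ← h1] at h2
    rw [← sum_div, ← sum_div, ← add_div]
    rw [eq_comm, div_eq_one_iff_eq hDz.ne']
    exact h2
  have hcard : ((up Z X).card : ℝ) = ∑ z ∈ up Z X, ∑ h, last (φ h) X z / (FF φ z - FF φ X) +
      ∑ z ∈ up Z X, ∑ u ∈ R z, MU φ u / (FF φ z - FF φ X) := by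
    rw [← sum_add_distrib, ← sum_congr rfl hone]
    simp
  have hsec : α * ∑ z ∈ up Z X, ∑ u ∈ R z, MU φ u / (FF φ z - FF φ X) ≤ B * (up Y X).card := by
    -- replace denominators
    have h1 : ∑ z ∈ up Z X, ∑ u ∈ R z, MU φ u / (FF φ z - FF φ X) ≤
        ∑ z ∈ up Z X, ∑ u ∈ R z, MU φ u / (t - FF φ X) := by
      refine sum_le_sum (fun z hz => sum_le_sum (fun u _ => ?_))
      have htz := hS.hZ z (mem_up.1 hz).1
      exact div_le_div_of_nonneg_left (MU_nonneg hφ u) hD (by linarith)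
    let Ω : Finset (ι → ℕ) := (up Z X).biUnion R
    have hRle : ∀ z ∈ up Z X, ∀ u ∈ R z, X < X ⊔ u ∧ X ⊔ u < z ∧ X ⊔ u ∉ Z := by
      intro z hz u hu
      have hu' := mem_filter.1 hu
      rw [mem_sdiff, mem_dn, mem_dn] at hu'
      have h3 : X ⊔ u ≤ z := sup_le (mem_up.1 hz).2 hu'.1.1
      have h4 : X ⊔ u < z := lt_of_le_of_ne h3 hu'.2
      refine ⟨?_, h4, ?_⟩
      · exact left_lt_sup.2 hu'.1.2
      · intro h5
        exact h4.ne (anti hφ hS h5 (mem_up.1 hz).1 h3)
    have h2 : ∑ z ∈ up Z X, ∑ u ∈ R z, MU φ u / (t - FF φ X) =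
        ∑ u ∈ Ω, ∑ z ∈ (up Z X).filter (fun z => u ∈ R z), MU φ u / (t - FF φ X) := by
      refine sum_comm' ?_
      intro z u
      simp only [Ω, mem_biUnion, mem_filter]
      constructor
      · rintro ⟨hz, hu⟩; exact ⟨⟨hz, hu⟩, z, hz, hu⟩
      · rintro ⟨⟨hz, hu⟩, _⟩; exact ⟨hz, hu⟩
    have h3 : ∀ u ∈ Ω, X < X ⊔ u ∧ X ⊔ u ∉ Z := by
      intro u hu
      obtain ⟨z, hz, hu⟩ := mem_biUnion.1 hu
      exact ⟨(hRle z hz u hu).1, (hRle z hz u hu).2.2⟩
    have h4 : ∀ u ∈ Ω, α * ∑ z ∈ (up Z X).filter (fun z => u ∈ R z), MU φ u / (t - FF φ X) ≤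
        MU φ u / (t - FF φ X) * (B * (up Y (X ⊔ u)).card) := by
      intro u hu
      have hsub : (up Z X).filter (fun z => u ∈ R z) ⊆ up Z (X ⊔ u) := by
        intro z hz
        rw [mem_filter] at hz
        exact mem_up.2 ⟨(mem_up.1 hz.1).1, (hRle z hz.1 u hz.2).2.1.le⟩
      have hnn : 0 ≤ MU φ u / (t - FF φ X) := div_nonneg (MU_nonneg hφ u) hD.le
      rw [sum_const, nsmul_eq_mul]
      have h5 : (((up Z X).filter (fun z => u ∈ R z)).card : ℝ) ≤ (up Z (X ⊔ u)).card := by
        exact_mod_cast card_le_card hsub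
      calc α * ((((up Z X).filter (fun z => u ∈ R z)).card : ℝ) * (MU φ u / (t - FF φ X)))
          = MU φ u / (t - FF φ X) * (α * (((up Z X).filter (fun z => u ∈ R z)).card : ℝ)) := by ring
        _ ≤ MU φ u / (t - FF φ X) * (α * (up Z (X ⊔ u)).card) :=
            mul_le_mul_of_nonneg_left (mul_le_mul_of_nonneg_left h5 hα) hnn
        _ ≤ _ := mul_le_mul_of_nonneg_left (ih _ (h3 u hu).1 (h3 u hu).2) hnn
    have h6 : ∑ u ∈ Ω, MU φ u * ((up Y (X ⊔ u)).card : ℝ) ≤ (up Y X).card * (t - FF φ X) := by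
      calc ∑ u ∈ Ω, MU φ u * ((up Y (X ⊔ u)).card : ℝ)
          = ∑ u ∈ Ω, ∑ y ∈ up Y (X ⊔ u), MU φ u := by
            refine sum_congr rfl (fun u _ => ?_)
            rw [sum_const, nsmul_eq_mul, mul_comm]
        _ = ∑ y ∈ up Y X, ∑ u ∈ Ω.filter (fun u => u ≤ y), MU φ u := by
            refine sum_comm' ?_
            intro u y
            rw [mem_filter, mem_up, mem_up]
            constructor
            · rintro ⟨hu, hy, hle⟩
              exact ⟨⟨hu, le_trans le_sup_right hle⟩, hy, le_trans le_sup_left hle⟩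
            · rintro ⟨⟨hu, hle⟩, hy, hXy⟩
              exact ⟨hu, hy, sup_le hXy hle⟩
        _ ≤ ∑ y ∈ up Y X, ∑ u ∈ dn y \ dn X, MU φ u := by
            refine sum_le_sum (fun y hy => ?_)
            refine sum_le_sum_of_subset_of_nonneg ?_ (fun u _ _ => MU_nonneg hφ u)
            intro u hu
            rw [mem_filter] at hu
            rw [mem_sdiff, mem_dn, mem_dn]
            refine ⟨hu.2, fun hle => ?_⟩
            have := (h3 u hu.1).1
            rw [left_lt_sup] at this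
            exact this hle
        _ ≤ ∑ y ∈ up Y X, (t - FF φ X) := by
            refine sum_le_sum (fun y hy => ?_)
            rw [sum_MU_sdiff φ (mem_up.1 hy).2]
            linarith [hS.hY y (mem_up.1 hy).1]
        _ = (up Y X).card * (t - FF φ X) := by rw [sum_const, nsmul_eq_mul]
    calc α * ∑ z ∈ up Z X, ∑ u ∈ R z, MU φ u / (FF φ z - FF φ X)
        ≤ α * ∑ z ∈ up Z X, ∑ u ∈ R z, MU φ u / (t - FF φ X) := mul_le_mul_of_nonneg_left h1 hα
      _ = ∑ u ∈ Ω, α * ∑ z ∈ (up Z X).filter (fun z => u ∈ R z), MU φ u / (t - FF φ X) := by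
          rw [h2, mul_sum]
      _ ≤ ∑ u ∈ Ω, MU φ u / (t - FF φ X) * (B * (up Y (X ⊔ u)).card) := sum_le_sum h4
      _ = B / (t - FF φ X) * ∑ u ∈ Ω, MU φ u * ((up Y (X ⊔ u)).card : ℝ) := by
          rw [mul_sum]
          refine sum_congr rfl (fun u _ => ?_)
          ring
      _ ≤ B / (t - FF φ X) * ((up Y X).card * (t - FF φ X)) :=
          mul_le_mul_of_nonneg_left h6 (by positivity)
      _ = B * (up Y X).card := by
          field_simp
  rw [hcard, mul_add]
  linarith

end counting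

/-- the inductive statement -/
lemma induct {φ : κ → ι → ℕ → ℝ} {t : ℝ} {Y Z : Finset (ι → ℕ)} (hφ : Good φ) (hS : Sep φ t Y Z)
    {C : ℝ} (hC : 0 < C) (hCm : (Fintype.card κ : ℝ) ≤ C) (r : ℕ) :
    ∀ X : ι → ℕ, X ∉ Z → (∀ z ∈ up Z X, ∑ j, (z j - X j) ≤ r) →
      (1 - Fintype.card κ / C) ^ r * (up Z X).card ≤
        r * PP (Fintype.card ι) (Fintype.card κ) C * (up Y X).card := by
  have hPP : 0 ≤ PP (Fintype.card ι) (Fintype.card κ) C := by
    have hn0 : (0:ℝ) ≤ Fintype.card ι := Nat.cast_nonneg _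
    have hm0 : (0:ℝ) ≤ Fintype.card κ := Nat.cast_nonneg _
    unfold PP; positivity
  have hδ : 0 ≤ 1 - Fintype.card κ / C := by
    rw [sub_nonneg, div_le_one hC]; exact hCm
  have hδ1 : 1 - Fintype.card κ / C ≤ 1 := by
    have : 0 ≤ Fintype.card κ / C := div_nonneg (Nat.cast_nonneg _) hC.le
    linarith
  induction r with
  | zero =>
    intro X hX hz
    have : up Z X = ∅ := by
      rw [← not_nonempty_iff_eq_empty]
      rintro ⟨z, hz'⟩
      have h1 := hz z hz'
      obtain ⟨hle, i, hi⟩ := Pi.lt_def.1 (lt_of_mem_up hX hz')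
      have h2 : z i - X i ≤ ∑ j, (z j - X j) :=
        single_le_sum (f := fun j => z j - X j) (fun j _ => Nat.zero_le _) (mem_univ i)
      omega
    rw [this]; simp
  | succ r ih =>
    intro X hX hz
    by_cases hne : (up Z X).Nonempty
    swap
    · rw [not_nonempty_iff_eq_empty] at hne
      rw [hne]
      simp only [card_empty, Nat.cast_zero, mul_zero]
      positivity
    have h1 := first_part hφ hS hX hC hne
    have hα : 0 ≤ (1 - Fintype.card κ / C) ^ r := pow_nonneg hδ r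
    have hα1 : (1 - Fintype.card κ / C) ^ r ≤ 1 := pow_le_one₀ hδ hδ1
    have h2 := second_part hφ hS hX hne (α := (1 - Fintype.card κ / C) ^ r)
      (B := r * PP (Fintype.card ι) (Fintype.card κ) C) hα (by positivity) (by
        intro X' hXX' hX'
        refine ih X' hX' (fun z hz' => ?_)
        have hz1 : z ∈ up Z X := mem_up.2 ⟨(mem_up.1 hz').1, hXX'.le.trans (mem_up.1 hz').2⟩
        have h3 := hz z hz1
        obtain ⟨hle, i, hi⟩ := Pi.lt_def.1 hXX'
        have hle' := (mem_up.1 hz').2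
        have h4 : ∑ j, (z j - X' j) < ∑ j, (z j - X j) := by
          refine sum_lt_sum (fun j _ => ?_) ⟨i, mem_univ i, ?_⟩
          · exact Nat.sub_le_sub_left (hle j) _
          · have : X' i ≤ z i := hle' i
            omega
        omega)
    set α := (1 - Fintype.card κ / C) ^ r with hαdef
    set P := PP (Fintype.card ι) (Fintype.card κ) C with hPdef
    have h3 : α * ∑ z ∈ up Z X, ∑ h, last (φ h) X z / (FF φ z - FF φ X) ≤
        α * (Fintype.card κ / C * (up Z X).card) + P * (up Y X).card := by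
      calc _ ≤ α * (Fintype.card κ / C * (up Z X).card + P * (up Y X).card) :=
            mul_le_mul_of_nonneg_left h1 hα
        _ = α * (Fintype.card κ / C * (up Z X).card) + α * (P * (up Y X).card) := by ring
        _ ≤ α * (Fintype.card κ / C * (up Z X).card) + 1 * (P * (up Y X).card) := by
            have : 0 ≤ P * (up Y X).card := by positivity
            nlinarith
        _ = _ := by ring
    have h4 : (1 - Fintype.card κ / C) ^ (r + 1) * (up Z X).card =
        α * (up Z X).card - α * (Fintype.card κ / C * (up Z X).card) := by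
      rw [pow_succ, ← hαdef]; ring
    rw [h4]
    push_cast
    linarith

/-- Theorem A -/
theorem abstract_bound {φ : κ → ι → ℕ → ℝ} {t : ℝ} {Y Z : Finset (ι → ℕ)} (hφ : Good φ)
    (hS : Sep φ t Y Z) (hY : Y.Nonempty) (K : ℕ) (hZK : ∀ z ∈ Z, ∑ j, z j ≤ K) :
    Z.card ≤ 2 * K * (Fintype.card ι + 2 * K * Fintype.card κ * Fintype.card ι +
      Fintype.card κ * (Fintype.card ι * (Fintype.card ι + 1)) + Fintype.card κ) * Y.card := by
  classical
  obtain ⟨y0, hy0⟩ := hY
  have h0Z : (0 : ι → ℕ) ∉ Z := by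
    intro h0
    have h1 : (0 : ι → ℕ) ≤ y0 := fun j => Nat.zero_le _
    linarith [hS.hY y0 hy0, hS.hZ 0 h0, FF_mono hφ h1]
  have hupZ : up Z 0 = Z := by
    ext z; rw [mem_up]; exact ⟨fun h => h.1, fun h => ⟨h, fun j => Nat.zero_le _⟩⟩
  have hupY : up Y 0 = Y := by
    ext z; rw [mem_up]; exact ⟨fun h => h.1, fun h => ⟨h, fun j => Nat.zero_le _⟩⟩
  by_cases hκ : Fintype.card κ = 0
  · -- no monomials: f is constant zero
    have hem : IsEmpty κ := Fintype.card_eq_zero_iff.1 hκ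
    have hZe : Z = ∅ := by
      rw [← not_nonempty_iff_eq_empty]
      rintro ⟨z, hz⟩
      have h1 := hS.hZ z hz
      have h2 := hS.hY y0 hy0
      simp only [FF, univ_eq_empty, sum_empty] at h1 h2
      linarith
    rw [hZe]; simp
  have hm : 0 < Fintype.card κ := Nat.pos_of_ne_zero hκ
  by_cases hK0 : K = 0
  · have hZe : Z = ∅ := by
      rw [← not_nonempty_iff_eq_empty]
      rintro ⟨z, hz⟩
      have h1 := hZK z hz
      have h2 : z = 0 := by
        ext j
        have h3 : z j ≤ ∑ j, z j := single_le_sum (f := z) (fun j _ => Nat.zero_le _) (mem_univ j)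
        show z j = 0
        omega
      exact h0Z (h2 ▸ hz)
    rw [hZe]; simp
  have hK : 0 < K := Nat.pos_of_ne_zero hK0
  set C : ℝ := 2 * K * Fintype.card κ with hCdef
  have hmR : (0:ℝ) < Fintype.card κ := by exact_mod_cast hm
  have hKR : (1:ℝ) ≤ K := by exact_mod_cast hK
  have hC : 0 < C := by positivity
  have hCm : (Fintype.card κ : ℝ) ≤ C := by rw [hCdef]; nlinarith
  have h1 := induct hφ hS hC hCm K 0 h0Z (by
    intro z hz
    rw [hupZ] at hz
    simpa using hZK z hz)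
  rw [hupZ, hupY] at h1
  have h2 : (Fintype.card κ : ℝ) / C = 1 / (2 * K) := by
    rw [hCdef]; field_simp
  have h3 : (1:ℝ) / 2 ≤ (1 - Fintype.card κ / C) ^ K := by
    have h4 : (-2:ℝ) ≤ -(1 / (2 * K)) := by
      have : (1:ℝ) / (2 * K) ≤ 1 := by
        rw [div_le_one (by positivity)]; linarith
      linarith
    have h5 := one_add_mul_le_pow h4 K
    rw [h2]
    have h6 : 1 + (K:ℝ) * -(1 / (2 * K)) = 1 / 2 := by field_simp; norm_num
    rw [h6] at h5
    simpa [sub_eq_add_neg] using h5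
  have h7 : (1:ℝ) / 2 * Z.card ≤ K * PP (Fintype.card ι) (Fintype.card κ) C * Y.card :=
    le_trans (mul_le_mul_of_nonneg_right h3 (Nat.cast_nonneg _)) h1
  have h8 : (Z.card : ℝ) ≤ 2 * K * (Fintype.card ι + 2 * K * Fintype.card κ * Fintype.card ι +
      Fintype.card κ * (Fintype.card ι * (Fintype.card ι + 1)) + Fintype.card κ) * Y.card := by
    have : K * PP (Fintype.card ι) (Fintype.card κ) C * Y.card =
        K * (Fintype.card ι + 2 * K * Fintype.card κ * Fintype.card ι +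
      Fintype.card κ * (Fintype.card ι * (Fintype.card ι + 1)) + Fintype.card κ) * Y.card := by
      rw [PP, hCdef]
    rw [this] at h7
    linarith
  exact_mod_cast h8

/-! ### Passage to relevant levels -/

section levels

variable {n : ℕ}

/-- relevant levels of the `j`-th coordinate (made infinite above all `y j + 1`) -/
def Lev (Y : Finset (Fin n → ℕ)) (j : Fin n) (k : ℕ) : Prop :=
  k = 0 ∨ (∃ y ∈ Y, k = y j + 1) ∨ Y.sup (fun y => y j + 1) < k

lemma lev_infinite (Y : Finset (Fin n → ℕ)) (j : Fin n) : {k | Lev Y j k}.Infinite := by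
  refine Set.infinite_of_not_bddAbove ?_
  rintro ⟨B, hB⟩
  have : Y.sup (fun y => y j + 1) + B + 1 ∈ {k | Lev Y j k} := Or.inr (Or.inr (by omega))
  have := hB this
  omega

open Classical in
noncomputable def lv (Y : Finset (Fin n → ℕ)) (j : Fin n) (k : ℕ) : ℕ := Nat.nth (Lev Y j) k

open Classical in
noncomputable def ct (Y : Finset (Fin n → ℕ)) (j : Fin n) (k : ℕ) : ℕ := Nat.count (Lev Y j) k

lemma lv_mono (Y : Finset (Fin n → ℕ)) (j : Fin n) : StrictMono (lv Y j) :=
  Nat.nth_strictMono (lev_infinite Y j)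

lemma lv_ct (Y : Finset (Fin n → ℕ)) (j : Fin n) {k : ℕ} (hk : Lev Y j k) : lv Y j (ct Y j k) = k := by
  classical
  exact Nat.nth_count hk

lemma lt_ct_iff (Y : Finset (Fin n → ℕ)) (j : Fin n) (k b : ℕ) : k < ct Y j b ↔ lv Y j k < b := by
  classical
  exact Nat.lt_nth_iff_count_lt (lev_infinite Y j)

lemma lev_zero (Y : Finset (Fin n → ℕ)) (j : Fin n) : Lev Y j 0 := Or.inl rfl

lemma lv_zero (Y : Finset (Fin n → ℕ)) (j : Fin n) : lv Y j 0 = 0 := by
  have h := lv_ct Y j (lev_zero Y j)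
  have : ct Y j 0 = 0 := by
    by_contra hne
    have h1 : 0 < ct Y j 0 := Nat.pos_of_ne_zero hne
    rw [lt_ct_iff] at h1
    omega
  rwa [this] at h

lemma ct_le (Y : Finset (Fin n → ℕ)) (j : Fin n) {k : ℕ} (hk : k = 0 ∨ ∃ y ∈ Y, k = y j + 1) :
    ct Y j k ≤ Y.card := by
  classical
  have hmem : k ∈ insert 0 (Y.image (fun y => y j + 1)) := by
    rw [mem_insert, mem_image]
    rcases hk with hk | ⟨y, hy, hk⟩
    · exact Or.inl hk
    · exact Or.inr ⟨y, hy, hk.symm⟩
  have h2 : (insert 0 (Y.image (fun y => y j + 1))).card ≤ Y.card + 1 :=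
    (card_insert_le _ _).trans (Nat.succ_le_succ card_image_le)
  rw [ct, Nat.count_eq_card_filter_range]
  refine (card_le_card (t := (insert 0 (Y.image (fun y => y j + 1))).erase k) ?_).trans ?_
  · intro i hi
    rw [mem_filter, mem_range] at hi
    rw [mem_erase, mem_insert, mem_image]
    refine ⟨hi.1.ne, ?_⟩
    rcases hi.2 with h | ⟨y, hy, h⟩ | h
    · exact Or.inl h
    · exact Or.inr ⟨y, hy, h.symm⟩
    · exfalso
      rcases hk with hk | ⟨y, hy, hk⟩
      · omega
      · have : y j + 1 ≤ Y.sup (fun y => y j + 1) := le_sup (f := fun y => y j + 1) hy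
        omega
  · rw [card_erase_of_mem hmem]
    omega

lemma z_levels {φ : κ → Fin n → ℕ → ℝ} {t : ℝ} {Y Z : Finset (Fin n → ℕ)} (hφ : Good φ)
    (hS : Sep φ t Y Z) {z : Fin n → ℕ} (hz : z ∈ Z) (j : Fin n) :
    z j = 0 ∨ ∃ y ∈ Y, z j = y j + 1 := by
  by_cases h0 : z j = 0
  · exact Or.inl h0
  · right
    obtain ⟨y, hy, hc⟩ := cover (X := 0) hφ hS hz (fun k => Nat.zero_le _) (j := j)
      (Nat.pos_of_ne_zero h0)
    exact ⟨y, (mem_up.1 hy).1, hc.2.1⟩

theorem level_bound {φ : κ → Fin n → ℕ → ℝ} {t : ℝ} {Y Z : Finset (Fin n → ℕ)} (hφ : Good φ)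
    (hS : Sep φ t Y Z) (hY : Y.Nonempty) :
    Z.card ≤ 2 * (n * Y.card) * (n + 2 * (n * Y.card) * Fintype.card κ * n +
      Fintype.card κ * (n * (n + 1)) + Fintype.card κ) * Y.card := by
  classical
  let V : (Fin n → ℕ) → (Fin n → ℕ) := fun x j => lv Y j (x j)
  let Lz : (Fin n → ℕ) → (Fin n → ℕ) := fun z j => ct Y j (z j)
  let Ly : (Fin n → ℕ) → (Fin n → ℕ) := fun y j => ct Y j (y j + 1) - 1
  let ψ : κ → Fin n → ℕ → ℝ := fun h j k => φ h j (lv Y j k)
  have hψ : Good ψ := by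
    refine ⟨fun h j => ?_, fun h j => ?_⟩
    · exact nn (hφ.h0 h j) (hφ.hm h j) _
    · exact (hφ.hm h j).comp (lv_mono Y j).monotone
  have hFV : ∀ x, FF ψ x = FF φ (V x) := fun x => rfl
  have hVz : ∀ z ∈ Z, V (Lz z) = z := by
    intro z hz
    ext j
    refine lv_ct Y j ?_
    rcases z_levels hφ hS hz j with h | ⟨y, hy, h⟩
    · exact Or.inl h
    · exact Or.inr (Or.inl ⟨y, hy, h⟩)
  have hctpos : ∀ (y : Fin n → ℕ) j, 0 < ct Y j (y j + 1) := by
    intro y j
    rw [lt_ct_iff, lv_zero]; omega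
  have hVy : ∀ y, V (Ly y) ≤ y := by
    intro y j
    have h1 := hctpos y j
    have h2 : ct Y j (y j + 1) - 1 < ct Y j (y j + 1) := by omega
    rw [lt_ct_iff] at h2
    show lv Y j (ct Y j (y j + 1) - 1) ≤ y j
    omega
  have hinj : Set.InjOn Lz Z := by
    intro z hz z' hz' h
    rw [← hVz z hz, ← hVz z' hz', h]
  have hSψ : Sep ψ t (Y.image Ly) (Z.image Lz) := by
    refine ⟨?_, ?_, ?_⟩
    · intro y' hy'
      obtain ⟨y, hy, rfl⟩ := mem_image.1 hy'
      rw [hFV]
      exact lt_of_le_of_lt (FF_mono hφ (hVy y)) (hS.hY y hy)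
    · intro z' hz'
      obtain ⟨z, hz, rfl⟩ := mem_image.1 hz'
      rw [hFV, hVz z hz]
      exact hS.hZ z hz
    · intro z' hz' x hx
      obtain ⟨z, hz, rfl⟩ := mem_image.1 hz'
      have hlt : V x < z := by
        obtain ⟨hle, i, hi⟩ := Pi.lt_def.1 hx
        rw [← hVz z hz]
        refine Pi.lt_def.2 ⟨fun j => (lv_mono Y j).monotone (hle j), i, lv_mono Y i hi⟩
      obtain ⟨y, hy, hVx⟩ := hS.hc z hz _ hlt
      refine ⟨Ly y, mem_image_of_mem _ hy, ?_⟩
      intro j
      have h1 : lv Y j (x j) ≤ y j := hVx j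
      have h2 : x j < ct Y j (y j + 1) := by rw [lt_ct_iff]; omega
      show x j ≤ ct Y j (y j + 1) - 1
      omega
  have hK : ∀ z ∈ Z.image Lz, ∑ j, z j ≤ n * Y.card := by
    intro z' hz'
    obtain ⟨z, hz, rfl⟩ := mem_image.1 hz'
    calc ∑ j, Lz z j ≤ ∑ _j : Fin n, Y.card :=
          sum_le_sum (fun j _ => ct_le Y j (z_levels hφ hS hz j))
      _ = n * Y.card := by simp
  have := abstract_bound hψ hSψ (hY.image Ly) (n * Y.card) hK
  rw [card_image_of_injOn hinj, Fintype.card_fin] at this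
  refine this.trans ?_
  exact Nat.mul_le_mul_left _ card_image_le

end levels

end Pool.Agent.H54.DualBoundAux
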